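import Pool.Agent.MEP.Neg
import Pool.Agent.MEP.Full

/-!
# The meromorphic extension property is not closed under deformations
-/

set_option autoImplicit false

open Set
open scoped Manifold ContDiff

open Pool.Agent.MEP in
/-- There is a complex deformation over the unit disc all of whose fibres over `t ≠ 0` have the
meromorphic extension property, while the central fibre does not have it. -/
theorem Pool.Agent.Results.MP_bf64af_an.Counterexample.result :
    ∃ (X : Type) (_ : TopologicalSpace X) (_ : T2Space X) (_ : SecondCountableTopology X)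
      (_ : ChartedSpace (Fin 5 → ℂ) X) (_ : IsManifold 𝓘(ℂ, Fin 5 → ℂ) ω X) (π : X → ℂ),
      IsDeformation (m := 5) π ∧
      (∀ t ∈ Metric.ball (0 : ℂ) 1, t ≠ 0 → HasExtensionProperty (m := 5) (π ⁻¹' {t})) ∧
      ¬ HasExtensionProperty (m := 5) (π ⁻¹' {(0 : ℂ)}) :=
  ⟨XX, inferInstance, inferInstance, inferInstance, inferInstance, inferInstance, pim,
    ⟨pim_mdifferentiable, range_pim, pim_hasRankOneAt, fun K hK1 hK =>
      isCompact_preimage hK1 hK, fun t ht => isConnected_fibre ht⟩,
    fun t ht ht0 => hasExtensionProperty_fibre ht0 (by simpa using ht),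
    fun h => not_hasExtensionPropertySC_zero h.sc⟩
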